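import Pool.Agent.W313.HB.Stm2

/-!
# HB-LDEG: the degree and the leading coefficient on a line
-/

set_option autoImplicit false

namespace Pool.Agent.W505.HB

open Finset Polynomial Pool.Agent.W313.HB

/-- the linear factor of a variable -/
noncomputable def pl {n : ℕ} (w v : Fin (n + 1) → ℤ) (i : Fin (n + 1)) : ℤ[X] :=
  C (w i) + C (v i) * X

theorem pl_deg {n : ℕ} (w v : Fin (n + 1) → ℤ) (i : Fin (n + 1)) : (pl w v i).natDegree ≤ 1 := by
  unfold pl
  rw [add_comm]
  exact natDegree_linear_le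

theorem pl_coeff {n : ℕ} (w v : Fin (n + 1) → ℤ) (i : Fin (n + 1)) :
    (pl w v i).coeff 1 = v i := by
  unfold pl
  rw [coeff_add, coeff_C_succ, zero_add, coeff_C_mul, coeff_X_one, mul_one]

theorem pl_pow {n : ℕ} (w v : Fin (n + 1) → ℤ) (i : Fin (n + 1)) (d : ℕ) :
    (pl w v i ^ d).natDegree ≤ d ∧ (pl w v i ^ d).coeff d = v i ^ d := by
  induction d with
  | zero => simp
  | succ d ih =>
    refine ⟨?_, ?_⟩
    · rw [pow_succ]
      exact natDegree_mul_le_of_le ih.1 (pl_deg w v i)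
    · rw [pow_succ, pow_succ, coeff_mul_add_eq_of_natDegree_le ih.1 (pl_deg w v i), ih.2, pl_coeff]

theorem pl_prod {n : ℕ} (w v : Fin (n + 1) → ℤ) (d : Fin (n + 1) → ℕ) (s : Finset (Fin (n + 1))) :
    (∏ i ∈ s, pl w v i ^ d i).natDegree ≤ ∑ i ∈ s, d i ∧
    (∏ i ∈ s, pl w v i ^ d i).coeff (∑ i ∈ s, d i) = ∏ i ∈ s, v i ^ d i := by
  classical
  induction s using Finset.induction_on with
  | empty => simp
  | insert a s ha ih =>
    rw [prod_insert ha, sum_insert ha, prod_insert ha]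
    have h1 := pl_pow w v a (d a)
    exact ⟨natDegree_mul_le_of_le h1.1 ih.1, by
      rw [coeff_mul_add_eq_of_natDegree_le h1.1 ih.1, h1.2, ih.2]⟩

theorem lineP_eq {n : ℕ} (F : MvPolynomial (Fin (n + 1)) ℤ) (w v : Fin (n + 1) → ℤ) :
    lineP F w v = ∑ d ∈ F.support, C (F.coeff d) * ∏ i, pl w v i ^ d i := by
  unfold lineP pl
  rw [MvPolynomial.aeval_def, MvPolynomial.eval₂_eq']
  rfl

theorem sum_deg {n D : ℕ} {F : MvPolynomial (Fin (n + 1)) ℤ} (hF : F.IsHomogeneous D)
    {d : Fin (n + 1) →₀ ℕ} (hd : d ∈ F.support) : ∑ i, d i = D := by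
  have h1 := hF (MvPolynomial.mem_support_iff.1 hd)
  rw [← h1]
  rw [Finsupp.weight_apply, Finsupp.sum_fintype]
  · simp
  · simp

theorem ldeg_ : S_LDEG := by
  intro n D F hF w v hv
  have h1 : (lineP F w v).natDegree ≤ D := by
    rw [lineP_eq]
    apply natDegree_sum_le_of_forall_le
    intro d hd
    refine (natDegree_C_mul_le _ _).trans ?_
    rw [← sum_deg hF hd]
    exact (pl_prod w v d univ).1
  have h2 : (lineP F w v).coeff D = MvPolynomial.eval v F := by
    rw [lineP_eq, finsetSum_coeff, MvPolynomial.eval_eq']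
    refine sum_congr rfl fun d hd => ?_
    rw [coeff_C_mul]
    congr 1
    rw [← sum_deg hF hd]
    exact (pl_prod w v d univ).2
  have h3 : (lineP F w v).natDegree = D :=
    natDegree_eq_of_le_of_coeff_ne_zero h1 (by rw [h2]; exact hv)
  refine ⟨h3, ?_, ?_⟩
  · rw [leadingCoeff, h3, h2]
  · intro t
    rw [lineP_eq, eval_finsetSum, MvPolynomial.eval_eq']
    refine sum_congr rfl fun d _ => ?_
    rw [eval_mul, eval_C, eval_prod]
    congr 1
    refine prod_congr rfl fun i _ => ?_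
    unfold pl
    rw [eval_pow, eval_add, eval_mul, eval_C, eval_C, eval_X, mul_comm (v i) t]

end Pool.Agent.W505.HB
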