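import Mathlib
import Pool.Agent.W313.HB.Stm4
import Pool.Agent.W125.HB.T2W

/-!
# Local points at the large primes, two parameters

Part ELSB2 of project HB (helper313), by helper505.
-/

set_option autoImplicit false
set_option linter.all false

namespace Pool.Agent.W505.HB.ELSB2

open Finset Polynomial
open Pool.Agent.W313.BMX (Splits)
open Pool.Agent.W313.HB
open Pool.Agent.W613.HBT (lineP_mul lineP_eval sep_of_comb aeval_cast)
open Pool.Agent.W125.HB.T2W (splits_right splits_left)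

variable {n : ℕ}

theorem exists_ne {F : MvPolynomial (Fin (n + 1)) ℤ} (hF : F ≠ 0) :
    ∃ v : Fin (n + 1) → ℤ, MvPolynomial.eval v F ≠ 0 := by
  by_contra h
  push Not at h
  exact hF (MvPolynomial.funext (fun v => by rw [h v, map_zero]))

theorem jac_pm (q : ℕ) (hq : q.Prime) (b : ℤ) (hb : ¬ (q : ℤ) ∣ b) :
    jacobiSym b q = 1 ∨ jacobiSym b q = -1 := by
  apply jacobiSym.eq_one_or_neg_one
  rw [Int.gcd_comm]
  exact Int.isCoprime_iff_gcd_eq_one.1 ((Nat.prime_iff_prime_int.1 hq).coprime_iff_not_dvd.2 hb)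

theorem sq_of_jac (q : ℕ) [hq : Fact q.Prime] (hq2 : q ≠ 2) (m b : ℤ) (hb : ¬ (q : ℤ) ∣ b)
    (hm : ¬ (q : ℤ) ∣ m) (h1 : jacobiSym m q = jacobiSym b q) :
    IsSquare (((b * m : ℤ)) : ℚ_[q]) := by
  have h3 : legendreSym q b = legendreSym q m := by
    rw [jacobiSym.legendreSym.to_jacobiSym, jacobiSym.legendreSym.to_jacobiSym, h1]
  exact Pool.Agent.W335.BMX.odd1 q hq2 b m hb hm h3

theorem elsb2_ (hex : S_EXIST) (hl : S_LDEG) (hd : S_DISC) : S_ELSB2 := by
  intro n α β γ A B E hA hB hE hαγ hβγ hγ hsq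
  have hF : (A * B * E).IsHomogeneous (α + β + γ) := (hA.mul hB).mul hE
  have hF0 : A * B * E ≠ 0 := by
    intro h
    rw [h, map_zero] at hsq
    exact hsq.ne_zero rfl
  obtain ⟨v, hv⟩ := exists_ne hF0
  have hv' := hv
  rw [map_mul, map_mul] at hv'
  have hvE : MvPolynomial.eval v E ≠ 0 := right_ne_zero_of_mul hv'
  have hvA : MvPolynomial.eval v A ≠ 0 := left_ne_zero_of_mul (left_ne_zero_of_mul hv')
  have hvB : MvPolynomial.eval v B ≠ 0 := right_ne_zero_of_mul (left_ne_zero_of_mul hv')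
  obtain ⟨r, hr0, hrw⟩ := hd n _ (A * B * E) hF hsq v hv
  obtain ⟨w, hw⟩ := exists_ne hr0
  obtain ⟨a1, b1, hab⟩ := hrw w
  have hsep : ((lineP (A * B * E) w v).map (Int.castRingHom ℚ)).Separable := by
    have h := sep_of_comb (Int.castRingHom ℚ) _ a1 b1 1 _ hab (by
      rw [one_mul, eq_intCast]
      exact_mod_cast hw)
    rwa [C_1, one_mul, comp_X] at h
  have hdeg : (lineP (A * B * E) w v).natDegree = α + β + γ := (hl n _ _ hF w v hv).1
  have hG0 : lineP (A * B * E) w v ≠ 0 := by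
    intro h
    rw [h, natDegree_zero] at hdeg
    omega
  have hBE : Good (lineP (B * E) w v) := by
    constructor
    · have e : lineP (A * B * E) w v = lineP A w v * lineP (B * E) w v := by
        rw [← lineP_mul, mul_assoc]
      rw [e, Polynomial.map_mul] at hsep
      exact hsep.of_mul_right
    · rw [(hl n _ _ (hB.mul hE) w v (by rw [map_mul]; exact mul_ne_zero hvB hvE)).1]
      omega
  have hAE : Good (lineP (A * E) w v) := by
    constructor
    · have e : lineP (A * B * E) w v = lineP B w v * lineP (A * E) w v := by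
        rw [← lineP_mul, mul_comm A B, mul_assoc]
      rw [e, Polynomial.map_mul] at hsep
      exact hsep.of_mul_right
    · rw [(hl n _ _ (hA.mul hE) w v (by rw [map_mul]; exact mul_ne_zero hvA hvE)).1]
      omega
  obtain ⟨z1, hz1⟩ := hex _ _ hBE hG0
  obtain ⟨z2, hz2⟩ := hex _ _ hAE hG0
  refine ⟨z1 + z2 + 3, ?_⟩
  intro p hpF hpz a b hsa hsb hnab
  have hp := hpF.out
  have hp2 : p ≠ 2 := by omega
  -- reduction to a good parameter
  suffices h : ∃ t : ℤ, ¬ (p : ℤ) ∣ (lineP (A * B * E) w v).eval t ∧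
      Splits ((((a * (lineP (A * E) w v).eval t : ℤ))) : ℚ_[p])
        ((((b * (lineP (B * E) w v).eval t : ℤ))) : ℚ_[p]) by
    obtain ⟨t, ht, hs⟩ := h
    have ht0 : (lineP (A * B * E) w v).eval t ≠ 0 := by
      intro h; rw [h] at ht; exact ht (dvd_zero _)
    rw [lineP_eval, map_mul, map_mul] at ht0
    rw [lineP_eval, lineP_eval] at hs
    refine ⟨fun i => (((w i + t * v i : ℤ)) : ℚ_[p]), Set.mem_univ _, ?_, ?_, ?_⟩
    · rw [aeval_cast, map_mul]
      exact_mod_cast mul_ne_zero (left_ne_zero_of_mul (left_ne_zero_of_mul ht0))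
        (right_ne_zero_of_mul ht0)
    · rw [aeval_cast, map_mul]
      exact_mod_cast mul_ne_zero (right_ne_zero_of_mul (left_ne_zero_of_mul ht0))
        (right_ne_zero_of_mul ht0)
    · rw [aeval_cast, aeval_cast]
      rw [Int.cast_mul, Int.cast_mul] at hs
      exact hs
  have hdvB : ∀ t : ℤ, ¬ (p : ℤ) ∣ (lineP (A * B * E) w v).eval t →
      ¬ (p : ℤ) ∣ (lineP (B * E) w v).eval t := by
    intro t ht h
    apply ht
    have e : lineP (A * B * E) w v = lineP A w v * lineP (B * E) w v := by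
      rw [← lineP_mul, mul_assoc]
    rw [e, eval_mul]
    exact h.mul_left _
  have hdvA : ∀ t : ℤ, ¬ (p : ℤ) ∣ (lineP (A * B * E) w v).eval t →
      ¬ (p : ℤ) ∣ (lineP (A * E) w v).eval t := by
    intro t ht h
    apply ht
    have e : lineP (A * B * E) w v = lineP B w v * lineP (A * E) w v := by
      rw [← lineP_mul, mul_comm A B, mul_assoc]
    rw [e, eval_mul]
    exact h.mul_left _
  by_cases hb : (p : ℤ) ∣ b
  · have ha : ¬ (p : ℤ) ∣ a := fun ha => hnab ⟨ha, hb⟩
    obtain ⟨x, -, hx1, hx2⟩ := hz2 p hp (by omega) (jacobiSym a p) (jac_pm p hp a ha)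
    exact ⟨x, hx2, splits_left (sq_of_jac p hp2 _ a ha (hdvA _ hx2) hx1)⟩
  · by_cases ha : (p : ℤ) ∣ a
    · obtain ⟨x, -, hx1, hx2⟩ := hz1 p hp (by omega) (jacobiSym b p) (jac_pm p hp b hb)
      exact ⟨x, hx2, splits_right (sq_of_jac p hp2 _ b hb (hdvB _ hx2) hx1)⟩
    · obtain ⟨x, -, -, hx2⟩ := hz1 p hp (by omega) 1 (Or.inl rfl)
      refine ⟨x, hx2, Pool.Agent.W335.BMX.odd2 p hp2 _ _ ?_ ?_⟩
      · intro h
        rcases Int.Prime.dvd_mul' hp h with h | h
        · exact ha h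
        · exact hdvA _ hx2 h
      · intro h
        rcases Int.Prime.dvd_mul' hp h with h | h
        · exact hb h
        · exact hdvB _ hx2 h

end Pool.Agent.W505.HB.ELSB2
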